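import Pool.Agent.H69.ED.Count
import Pool.Agent.H69.ED.Gap

/-!
# Primes between integers with the same prime divisors: almost all pairs

For every `B`, all but at most `x / (log x)^B` of the pairs `a < b < 2a`, `b ≤ x`, of positive
integers with the same prime divisors (of which there are at least `x / 20`) have the expected number
of primes between them.
-/

set_option autoImplicit false

namespace Pool.Agent.Results.MP_5f9bba_nt.AlmostAllPairs

open Finset Filter Pool.Agent.H69.ED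

lemma ncard_le {P : ℕ × ℕ → Prop} {F : Finset (ℕ × ℕ)} (h : ∀ p, P p → p ∈ F) :
    {p : ℕ × ℕ | P p}.ncard ≤ F.card := by
  rw [← Set.ncard_coe_finset]
  exact Set.ncard_le_ncard (fun p hp => by exact_mod_cast h p hp) F.finite_toSet

lemma mem_near {x : ℕ} {L : ℝ} {p : ℕ × ℕ} (h0 : 0 < p.1) (h1 : p.1 < p.2) (h2 : p.2 < 2 * p.1)
    (h3 : p.2 ≤ x) (h4 : p.1.primeFactors = p.2.primeFactors)
    (h5 : L * ((p.2 : ℝ) - p.1) ≤ p.1) : p ∈ near x L := by
  unfold near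
  rw [mem_filter, mem_product, mem_Icc, mem_Icc]
  exact ⟨⟨⟨h0, by omega⟩, by omega, h3⟩, h1, h2, h4, h5⟩

/-- the main estimate -/
lemma main {K : ℝ} (hK : 0 < K) (hKM : ∀ M : ℕ, ∑ u ∈ Icc 1 M, ff (1 / 4) u ≤ K) (B : ℕ) :
    ∃ x₀ : ℕ, ∀ x : ℕ, x₀ ≤ x →
    ({p : ℕ × ℕ | 0 < p.1 ∧ p.1 < p.2 ∧ p.2 < 2 * p.1 ∧ p.2 ≤ x ∧
      p.1.primeFactors = p.2.primeFactors ∧
      ((p.2 : ℝ) - p.1) / (Real.log x) ^ B <
        |(∑ q ∈ Ioo p.1 p.2 with q.Prime, Real.log q) - ((p.2 : ℝ) - p.1)|}.ncard : ℝ) ≤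
      x / (Real.log x) ^ B := by
  obtain ⟨n₀, hn₀⟩ := between_bound (3 * B + 3)
  have hev : ∀ᶠ x : ℝ in atTop, Real.log x ^ (2 * (B + 1)) ≤ x := by
    have h1 := (Real.isLittleO_pow_log_id_atTop (n := 2 * (B + 1))).bound one_pos
    filter_upwards [h1, Filter.eventually_ge_atTop (1 : ℝ)] with x hx hx1
    have := Real.log_nonneg hx1
    rw [Real.norm_of_nonneg (by positivity), id, Real.norm_of_nonneg (by linarith), one_mul] at hx
    exact hx
  have hev2 : ∀ᶠ x : ℝ in atTop, 3 * K ^ 2 + 2 ^ (3 * B + 3) + 1 ≤ Real.log x :=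
    Real.tendsto_log_atTop.eventually_ge_atTop _
  obtain ⟨X₀, hX₀⟩ := eventually_atTop.mp (hev.and hev2)
  obtain ⟨x₁, hx₁⟩ := exists_nat_ge X₀
  refine ⟨max x₁ ((n₀ + 1) ^ 2 + 1), fun x hx => ?_⟩
  obtain ⟨h1, h2⟩ := hX₀ x (hx₁.trans (by exact_mod_cast (le_max_left _ _).trans hx))
  have hxn : (n₀ + 1) ^ 2 + 1 ≤ x := (le_max_right _ _).trans hx
  have hx1 : 1 ≤ x := by omega
  have hxr : (1 : ℝ) ≤ x := by exact_mod_cast hx1
  have hx0 : (0 : ℝ) < x := by linarith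
  set ℓ := Real.log x with hℓ
  have hK2 : 0 < K ^ 2 := by positivity
  have hP : (0 : ℝ) < 2 ^ (3 * B + 3) := by positivity
  have hℓ1 : 1 ≤ ℓ := by linarith
  have hℓ0 : 0 < ℓ := by linarith
  have hL1 : 1 ≤ ℓ ^ (2 * (B + 1)) := one_le_pow₀ hℓ1
  -- covering
  have hcov := ncard_le (P := fun p : ℕ × ℕ => 0 < p.1 ∧ p.1 < p.2 ∧ p.2 < 2 * p.1 ∧ p.2 ≤ x ∧
      p.1.primeFactors = p.2.primeFactors ∧
      ((p.2 : ℝ) - p.1) / ℓ ^ B <
        |(∑ q ∈ Ioo p.1 p.2 with q.Prime, Real.log q) - ((p.2 : ℝ) - p.1)|)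
      (F := near (2 * Nat.sqrt x) 1 ∪ near x (ℓ ^ (2 * (B + 1)))) (by
    rintro ⟨a, b⟩ ⟨ha, hab, hb2, hbx, hrad, hbad⟩
    simp only at ha hab hb2 hbx hrad hbad
    rw [mem_union]
    have habr : (a : ℝ) + 1 ≤ b := by exact_mod_cast hab
    have hb2r : (b : ℝ) ≤ 2 * a := by exact_mod_cast hb2.le
    rcases le_or_gt a (Nat.sqrt x) with has | has
    · left
      refine mem_near (p := (a, b)) ha hab hb2 (by simp only; omega) hrad ?_
      simp only
      linarith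
    · right
      refine mem_near (p := (a, b)) ha hab hb2 hbx hrad ?_
      simp only
      by_contra hcon
      push Not at hcon
      have hxa : x < a * a := Nat.sqrt_lt.mp has
      have hna : n₀ ≤ a := by
        by_contra hc
        push Not at hc
        nlinarith
      have hapos : (0 : ℝ) < a := by exact_mod_cast ha
      have hax : (a : ℝ) ≤ x := by exact_mod_cast (by omega : a ≤ x)
      have hll : ℓ ≤ 2 * Real.log a := by
        have h3 : (x : ℝ) ≤ (a : ℝ) ^ 2 := by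
          rw [sq]
          exact_mod_cast hxa.le
        calc ℓ ≤ Real.log ((a : ℝ) ^ 2) := Real.log_le_log hx0 h3
          _ = _ := by rw [Real.log_pow]; push_cast; ring
      have h4 := hn₀ a b hna hab hb2
      unfold between at h4
      have h5 : (a : ℝ) / Real.log a ^ (3 * B + 3) ≤ a * 2 ^ (3 * B + 3) / ℓ ^ (3 * B + 3) := by
        rw [mul_div_assoc, ← div_pow, div_eq_mul_inv, ← inv_pow]
        have h6 : 0 < Real.log a := by linarith
        have h7 : (Real.log a)⁻¹ ≤ 2 / ℓ := by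
          rw [inv_eq_one_div, div_le_div_iff₀ h6 hℓ0]
          linarith
        gcongr
      have h8 : (a : ℝ) * 2 ^ (3 * B + 3) / ℓ ^ (3 * B + 3) ≤ ((b : ℝ) - a) / ℓ ^ B := by
        rw [div_le_div_iff₀ (by positivity) (by positivity)]
        have h9 : ℓ ^ (3 * B + 3) = ℓ ^ (2 * (B + 1)) * ℓ * ℓ ^ B := by ring
        rw [h9]
        have h10 : (2 : ℝ) ^ (3 * B + 3) ≤ ℓ := by linarith
        have h11 : 0 ≤ ℓ ^ (2 * (B + 1)) * ((b : ℝ) - a) := by
          have : (0 : ℝ) ≤ (b : ℝ) - a := by linarith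
          positivity
        calc (a : ℝ) * 2 ^ (3 * B + 3) * ℓ ^ B
            ≤ (ℓ ^ (2 * (B + 1)) * ((b : ℝ) - a)) * ℓ * ℓ ^ B := by
              have := hcon.le
              gcongr
          _ = ((b : ℝ) - a) * (ℓ ^ (2 * (B + 1)) * ℓ * ℓ ^ B) := by ring
      linarith)
  have hc1 := card_near hK hKM (2 * Nat.sqrt x) (le_refl (1 : ℝ))
  have hc2 := card_near hK hKM x hL1
  have hsq : √(ℓ ^ (2 * (B + 1))) = ℓ ^ (B + 1) := by
    rw [mul_comm, pow_mul]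
    exact Real.sqrt_sq (by positivity)
  rw [hsq] at hc2
  rw [Real.sqrt_one, div_one] at hc1
  have hc3 : ((near (2 * Nat.sqrt x) 1 ∪ near x (ℓ ^ (2 * (B + 1)))).card : ℝ) ≤
      K ^ 2 * (2 * √(x : ℝ)) + K ^ 2 * x / ℓ ^ (B + 1) := by
    have h6 : ((near (2 * Nat.sqrt x) 1 ∪ near x (ℓ ^ (2 * (B + 1)))).card : ℝ) ≤
        ((near (2 * Nat.sqrt x) 1).card : ℝ) + ((near x (ℓ ^ (2 * (B + 1)))).card : ℝ) := by
      exact_mod_cast card_union_le _ _
    have h7 : K ^ 2 * ((2 * Nat.sqrt x : ℕ) : ℝ) ≤ K ^ 2 * (2 * √(x : ℝ)) := by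
      push_cast
      have : (Nat.sqrt x : ℝ) ≤ √(x : ℝ) := Real.nat_sqrt_le_real_sqrt
      gcongr
    linarith
  have h3 : ℓ ^ (B + 1) ≤ √(x : ℝ) := by
    apply Real.le_sqrt_of_sq_le
    rw [← pow_mul, mul_comm (B + 1) 2]
    exact h1
  have h4 : √(x : ℝ) ≤ x / ℓ ^ (B + 1) := by
    rw [le_div_iff₀ (by positivity)]
    calc √(x : ℝ) * ℓ ^ (B + 1) ≤ √(x : ℝ) * √(x : ℝ) := by gcongr
      _ = x := Real.mul_self_sqrt hx0.le
  calc _ ≤ ((near (2 * Nat.sqrt x) 1 ∪ near x (ℓ ^ (2 * (B + 1)))).card : ℝ) := by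
        exact_mod_cast hcov
    _ ≤ K ^ 2 * (2 * √(x : ℝ)) + K ^ 2 * x / ℓ ^ (B + 1) := hc3
    _ ≤ K ^ 2 * (2 * (x / ℓ ^ (B + 1))) + K ^ 2 * x / ℓ ^ (B + 1) := by gcongr
    _ = (3 * K ^ 2) * (x / ℓ ^ (B + 1)) := by ring
    _ ≤ ℓ * (x / ℓ ^ (B + 1)) := by
        have : 3 * K ^ 2 ≤ ℓ := by linarith
        gcongr
    _ = x / ℓ ^ B := by
        rw [pow_succ]
        field_simp

lemma same_12_18 {k : ℕ} (hk : 0 < k) : (12 * k).primeFactors = (18 * k).primeFactors := by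
  have h12 : (12 : ℕ).primeFactors = (18 : ℕ).primeFactors := by
    rw [show (12 : ℕ) = 2 ^ 2 * 3 by norm_num, show (18 : ℕ) = 2 * 3 ^ 2 by norm_num,
      Nat.primeFactors_mul (by norm_num) (by norm_num),
      Nat.primeFactors_mul (by norm_num) (by norm_num),
      Nat.primeFactors_prime_pow (by norm_num) Nat.prime_two,
      Nat.primeFactors_prime_pow (by norm_num) Nat.prime_three,
      Nat.prime_two.primeFactors, Nat.prime_three.primeFactors]
  rw [Nat.primeFactors_mul (by norm_num) hk.ne', Nat.primeFactors_mul (by norm_num) hk.ne', h12]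

lemma lower {x : ℕ} (hx : 180 ≤ x) : (x : ℝ) / 20 ≤
    ({p : ℕ × ℕ | 0 < p.1 ∧ p.1 < p.2 ∧ p.2 < 2 * p.1 ∧ p.2 ≤ x ∧
      p.1.primeFactors = p.2.primeFactors}.ncard : ℝ) := by
  have hfin : {p : ℕ × ℕ | 0 < p.1 ∧ p.1 < p.2 ∧ p.2 < 2 * p.1 ∧ p.2 ≤ x ∧
      p.1.primeFactors = p.2.primeFactors}.Finite := by
    refine ((Set.finite_Iic x).prod (Set.finite_Iic x)).subset ?_
    rintro ⟨a, b⟩ ⟨-, h1, -, h2, -⟩
    simp only at h1 h2
    exact ⟨by simp only [Set.mem_Iic]; omega, by simpa using h2⟩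
  have h1 : x / 18 ≤ {p : ℕ × ℕ | 0 < p.1 ∧ p.1 < p.2 ∧ p.2 < 2 * p.1 ∧ p.2 ≤ x ∧
      p.1.primeFactors = p.2.primeFactors}.ncard := by
    have h2 : ((Icc 1 (x / 18)).image fun k => (12 * k, 18 * k)).card = x / 18 := by
      rw [card_image_of_injective, Nat.card_Icc]
      · omega
      · intro a b hab
        simp only [Prod.mk.injEq] at hab
        omega
    rw [← h2, ← Set.ncard_coe_finset]
    refine Set.ncard_le_ncard ?_ hfin
    intro p hp
    rw [mem_coe, mem_image] at hp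
    obtain ⟨k, hk, rfl⟩ := hp
    rw [mem_Icc] at hk
    exact ⟨by simp only; omega, by simp only; omega, by simp only; omega, by simp only; omega,
      same_12_18 (by omega)⟩
  have h3 : (x : ℝ) / 20 ≤ ((x / 18 : ℕ) : ℝ) := by
    have h4 : x < 18 * (x / 18) + 18 := by omega
    have h5 : (x : ℝ) < 18 * ((x / 18 : ℕ) : ℝ) + 18 := by exact_mod_cast h4
    have h6 : (180 : ℝ) ≤ x := by exact_mod_cast hx
    linarith
  exact h3.trans (by exact_mod_cast h1)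

/-- For every `B` and all large `x`: there are at least `x / 20` pairs `a < b < 2 a`, `b ≤ x`, of
positive integers with the same prime divisors, and for all but at most `x / (log x)^B` of these
pairs the sum of `log q` over the primes `q` strictly between `a` and `b` differs from `b - a` by at
most `(b - a) / (log x)^B`. -/
theorem result (B : ℕ) : ∃ x₀ : ℕ, ∀ x : ℕ, x₀ ≤ x →
    (x : ℝ) / 20 ≤ ({p : ℕ × ℕ | 0 < p.1 ∧ p.1 < p.2 ∧ p.2 < 2 * p.1 ∧ p.2 ≤ x ∧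
      p.1.primeFactors = p.2.primeFactors}.ncard : ℝ) ∧
    ({p : ℕ × ℕ | 0 < p.1 ∧ p.1 < p.2 ∧ p.2 < 2 * p.1 ∧ p.2 ≤ x ∧
      p.1.primeFactors = p.2.primeFactors ∧
      ((p.2 : ℝ) - p.1) / (Real.log x) ^ B <
        |(∑ q ∈ Ioo p.1 p.2 with q.Prime, Real.log q) - ((p.2 : ℝ) - p.1)|}.ncard : ℝ) ≤
      x / (Real.log x) ^ B := by
  obtain ⟨K, hK, hKM⟩ := exists_K (show (0 : ℝ) < 1 / 4 by norm_num)
  obtain ⟨x₂, hx₂⟩ := main hK hKM B
  exact ⟨max x₂ 180, fun x hx => ⟨lower ((le_max_right _ _).trans hx),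
    hx₂ x ((le_max_left _ _).trans hx)⟩⟩

end Pool.Agent.Results.MP_5f9bba_nt.AlmostAllPairs
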