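import Mathlib

/-!
# MP_5f9bba_nt: few pairs with equal radicals and no prime between them

Let `G` be such that every interval `(y, y + G]` with `1 ≤ y ≤ x` contains a prime (for instance
the largest gap between consecutive primes `p < p'`, `p ≤ x`). Then the number of pairs `a < b` with
`a ≤ x` and the same prime factors which have no prime between them is at most `C x ^ ε G`.

Proof. The common radical `r` of `a` and `b` divides `b - a`, so `r ≤ b - a`, and `b ≤ a + G`, as there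
is a prime in `(a, a + G]` and this prime is at least `b`. So `r ≤ G`. By Bertrand's postulate
`b ≤ 2 * a`. For each `r` the number of integers up to `2 * x` with radical `r` is at most
`C x ^ (ε / 2)` (Rankin's method, `count`).
-/

set_option autoImplicit false

namespace Pool.Agent.Results.MP_5f9bba_nt.FewExceptions

open Finset

/-- `n ↦ n ^ (-ε)`. -/
noncomputable def powHom (ε : ℝ) : ℕ →* ℝ where
  toFun n := (n : ℝ) ^ (-ε)
  map_one' := by simp
  map_mul' m n := by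
    rw [Nat.cast_mul, Real.mul_rpow (Nat.cast_nonneg _) (Nat.cast_nonneg _)]

theorem rankin (ε : ℝ) (hε : 0 < ε) (S : Finset ℕ) (hS : ∀ p ∈ S, p.Prime) (X : ℕ) :
    (((Icc 1 X).filter fun m => m.primeFactors = S).card : ℝ) ≤
      (X : ℝ) ^ ε * ∏ p ∈ S, (1 - (p : ℝ) ^ (-ε))⁻¹ := by
  classical
  have hf : ∀ {p : ℕ}, p.Prime → ‖powHom ε p‖ < 1 := by
    intro p hp
    have hp1 : (1 : ℝ) < p := by exact_mod_cast hp.one_lt
    have h1 : (p : ℝ) ^ (-ε) < 1 := Real.rpow_lt_one_of_one_lt_of_neg hp1 (by linarith)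
    have h0 : 0 ≤ (p : ℝ) ^ (-ε) := Real.rpow_nonneg (by positivity) _
    simpa [powHom, abs_of_nonneg h0] using h1
  obtain ⟨-, hsum⟩ :=
    EulerProduct.summable_and_hasSum_factoredNumbers_prod_filter_prime_geometric hf S
  have hfilt : (S.filter fun p => p.Prime) = S := Finset.filter_true_of_mem hS
  rw [hfilt] at hsum
  set A := (Icc 1 X).filter fun m => m.primeFactors = S with hA
  have hmem : ∀ m ∈ A, m ∈ Nat.factoredNumbers S := by
    intro m hm
    rw [hA, mem_filter, mem_Icc] at hm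
    rw [Nat.mem_factoredNumbers']
    intro p hp hpm
    rw [← hm.2]
    exact Nat.mem_primeFactors.2 ⟨hp, hpm, by omega⟩
  let B : Finset (Nat.factoredNumbers S) := A.attach.map
    ⟨fun m => ⟨m.1, hmem m.1 m.2⟩, fun a b h => by
      apply Subtype.ext
      simpa using h⟩
  have h1 : ∑ m ∈ B, powHom ε (m : ℕ) ≤ ∏ p ∈ S, (1 - powHom ε p)⁻¹ :=
    sum_le_hasSum B (fun m _ => Real.rpow_nonneg (Nat.cast_nonneg _) _) hsum
  have h2 : ∑ m ∈ B, powHom ε (m : ℕ) = ∑ m ∈ A, powHom ε m := by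
    rw [Finset.sum_map]
    exact Finset.sum_attach A (fun m => powHom ε m)
  rw [h2] at h1
  rcases Nat.eq_zero_or_pos X with hX | hX
  · subst hX
    have : A = ∅ := by
      rw [hA]
      simp
    rw [this]
    simp only [card_empty, Nat.cast_zero]
    refine mul_nonneg (Real.rpow_nonneg le_rfl _) (Finset.prod_nonneg fun p hp => ?_)
    have := hf (hS p hp)
    rw [Real.norm_eq_abs] at this
    have h3 := (abs_lt.1 this).2
    exact inv_nonneg.2 (sub_nonneg.2 h3.le)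
  have hXpos : (0 : ℝ) < X := by exact_mod_cast hX
  have h3 : (A.card : ℝ) * (X : ℝ) ^ (-ε) ≤ ∑ m ∈ A, powHom ε m := by
    rw [← nsmul_eq_mul]
    refine Finset.card_nsmul_le_sum A _ _ fun m hm => ?_
    rw [hA, mem_filter, mem_Icc] at hm
    exact Real.rpow_le_rpow_of_nonpos (by exact_mod_cast hm.1.1) (by exact_mod_cast hm.1.2)
      (by linarith)
  have h4 : (A.card : ℝ) * (X : ℝ) ^ (-ε) ≤ ∏ p ∈ S, (1 - (p : ℝ) ^ (-ε))⁻¹ := h3.trans h1
  calc (A.card : ℝ) = (X : ℝ) ^ ε * ((A.card : ℝ) * (X : ℝ) ^ (-ε)) := by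
        rw [Real.rpow_neg hXpos.le]
        field_simp
    _ ≤ _ := mul_le_mul_of_nonneg_left h4 (Real.rpow_nonneg hXpos.le _)

theorem euler_bound (ε : ℝ) (hε : 0 < ε) : ∃ C : ℝ, 0 < C ∧ ∀ S : Finset ℕ,
    (∀ p ∈ S, p.Prime) → ∏ p ∈ S, (1 - (p : ℝ) ^ (-ε))⁻¹ ≤ C * ((∏ p ∈ S, p : ℕ) : ℝ) ^ ε := by
  classical
  obtain ⟨M, hM⟩ := exists_nat_ge ((2 : ℝ) ^ (1 / ε))
  set c : ℝ := (1 - (2 : ℝ) ^ (-ε))⁻¹ with hc
  have h2 : (2 : ℝ) ^ (-ε) < 1 := Real.rpow_lt_one_of_one_lt_of_neg one_lt_two (by linarith)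
  have h20 : 0 < (2 : ℝ) ^ (-ε) := Real.rpow_pos_of_pos two_pos _
  have hc1 : 1 ≤ c := by
    rw [hc]
    exact (one_le_inv₀ (by linarith)).2 (by linarith)
  refine ⟨c ^ M, by positivity, fun S hS => ?_⟩
  have hterm : ∀ p ∈ S, (1 - (p : ℝ) ^ (-ε))⁻¹ ≤ (if p < M then c else 1) * (p : ℝ) ^ ε := by
    intro p hp
    have hpp := hS p hp
    have hp2 : (2 : ℝ) ≤ p := by exact_mod_cast hpp.two_le
    have hpe : 1 ≤ (p : ℝ) ^ ε := Real.one_le_rpow (by linarith) hε.le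
    by_cases hpM : p < M
    · rw [if_pos hpM]
      have h3 : (p : ℝ) ^ (-ε) ≤ (2 : ℝ) ^ (-ε) :=
        Real.rpow_le_rpow_of_nonpos two_pos hp2 (by linarith)
      have h4 : (1 - (p : ℝ) ^ (-ε))⁻¹ ≤ c := by
        rw [hc]
        exact inv_anti₀ (by linarith) (by linarith)
      nlinarith
    · rw [if_neg hpM, one_mul]
      have h5 : (2 : ℝ) ≤ (p : ℝ) ^ ε := by
        have h6 : (2 : ℝ) ^ (1 / ε) ≤ p := hM.trans (by exact_mod_cast not_lt.1 hpM)
        calc (2 : ℝ) = ((2 : ℝ) ^ (1 / ε)) ^ ε := by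
              rw [← Real.rpow_mul two_pos.le, one_div, inv_mul_cancel₀ hε.ne', Real.rpow_one]
          _ ≤ _ := Real.rpow_le_rpow (by positivity) h6 hε.le
      have h7 : (p : ℝ) ^ (-ε) = ((p : ℝ) ^ ε)⁻¹ := Real.rpow_neg (by positivity) _
      rw [h7]
      set y := (p : ℝ) ^ ε with hy
      have hy0 : 0 < y := by linarith
      have h8 : y⁻¹ ≤ 1 - y⁻¹ := by
        have : y⁻¹ ≤ (2 : ℝ)⁻¹ := inv_anti₀ two_pos h5
        linarith
      calc (1 - y⁻¹)⁻¹ ≤ (y⁻¹)⁻¹ := inv_anti₀ (by positivity) h8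
        _ = y := inv_inv y
  calc ∏ p ∈ S, (1 - (p : ℝ) ^ (-ε))⁻¹ ≤ ∏ p ∈ S, ((if p < M then c else 1) * (p : ℝ) ^ ε) := by
        refine Finset.prod_le_prod (fun p hp => ?_) hterm
        have hp1 : (1 : ℝ) < p := by exact_mod_cast (hS p hp).one_lt
        have := Real.rpow_lt_one_of_one_lt_of_neg hp1 (show -ε < 0 by linarith)
        exact inv_nonneg.2 (by linarith)
    _ = (∏ p ∈ S, (if p < M then c else 1)) * ((∏ p ∈ S, p : ℕ) : ℝ) ^ ε := by
        rw [Finset.prod_mul_distrib, Nat.cast_prod,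
          Real.finsetProd_rpow S _ (fun p _ => Nat.cast_nonneg p)]
    _ ≤ c ^ M * ((∏ p ∈ S, p : ℕ) : ℝ) ^ ε := by
        refine mul_le_mul_of_nonneg_right ?_ (Real.rpow_nonneg (Nat.cast_nonneg _) _)
        rw [Finset.prod_ite, Finset.prod_const, Finset.prod_const_one, mul_one]
        refine pow_le_pow_right₀ hc1 ?_
        calc (S.filter fun p => p < M).card ≤ (Finset.range M).card :=
              Finset.card_le_card fun p hp => Finset.mem_range.2 (Finset.mem_filter.1 hp).2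
          _ = M := Finset.card_range M

/-- The number of integers up to `X` with a given set of prime factors is `O(X ^ ε)`. -/
theorem count (ε : ℝ) (hε : 0 < ε) : ∃ C : ℝ, 0 < C ∧ ∀ (S : Finset ℕ) (X : ℕ),
    (((Icc 1 X).filter fun m => m.primeFactors = S).card : ℝ) ≤ C * (X : ℝ) ^ ε := by
  classical
  obtain ⟨C, hC, h⟩ := euler_bound (ε / 2) (by linarith)
  refine ⟨C, hC, fun S X => ?_⟩
  rcases ((Icc 1 X).filter fun m => m.primeFactors = S).eq_empty_or_nonempty with hA | ⟨m, hm⟩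
  · rw [hA]
    simp only [card_empty, Nat.cast_zero]
    positivity
  rw [mem_filter, mem_Icc] at hm
  have hS : ∀ p ∈ S, p.Prime := by
    intro p hp
    rw [← hm.2] at hp
    exact Nat.prime_of_mem_primeFactors hp
  have hprod : ∏ p ∈ S, p ≤ X := by
    rw [← hm.2]
    exact (Nat.le_of_dvd (by omega) (Nat.prod_primeFactors_dvd m)).trans hm.1.2
  have hX : (0 : ℝ) < X := by
    have : 0 < X := by omega
    exact_mod_cast this
  calc (((Icc 1 X).filter fun m => m.primeFactors = S).card : ℝ)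
      ≤ (X : ℝ) ^ (ε / 2) * ∏ p ∈ S, (1 - (p : ℝ) ^ (-(ε / 2)))⁻¹ :=
        rankin (ε / 2) (by linarith) S hS X
    _ ≤ (X : ℝ) ^ (ε / 2) * (C * ((∏ p ∈ S, p : ℕ) : ℝ) ^ (ε / 2)) :=
        mul_le_mul_of_nonneg_left (h S hS) (by positivity)
    _ ≤ (X : ℝ) ^ (ε / 2) * (C * (X : ℝ) ^ (ε / 2)) := by
        have : ((∏ p ∈ S, p : ℕ) : ℝ) ^ (ε / 2) ≤ (X : ℝ) ^ (ε / 2) :=
          Real.rpow_le_rpow (Nat.cast_nonneg _) (by exact_mod_cast hprod) (by linarith)
        gcongr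
    _ = C * (X : ℝ) ^ ε := by
        have : (X : ℝ) ^ ε = (X : ℝ) ^ (ε / 2) * (X : ℝ) ^ (ε / 2) := by
          rw [← Real.rpow_add hX]
          congr 1
          ring
        rw [this]
        ring

/-- For every `ε > 0` there is `C` such that for all `x ≥ 1` and `G` for which each interval
`(y, y + G]` with `1 ≤ y ≤ x` contains a prime, there are at most `C x ^ ε G` pairs `a < b` with
`0 < a ≤ x`, with the same prime factors and without a prime strictly between them. -/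
theorem result (ε : ℝ) (hε : 0 < ε) : ∃ C : ℝ, ∀ x G : ℕ, 1 ≤ x →
    (∀ y : ℕ, 1 ≤ y → y ≤ x → ∃ p : ℕ, p.Prime ∧ y < p ∧ p ≤ y + G) →
    {q : ℕ × ℕ | 0 < q.1 ∧ q.1 ≤ x ∧ q.1 < q.2 ∧ q.1.primeFactors = q.2.primeFactors ∧
      ¬ ∃ p : ℕ, p.Prime ∧ q.1 < p ∧ p < q.2}.Finite ∧
    ({q : ℕ × ℕ | 0 < q.1 ∧ q.1 ≤ x ∧ q.1 < q.2 ∧ q.1.primeFactors = q.2.primeFactors ∧
      ¬ ∃ p : ℕ, p.Prime ∧ q.1 < p ∧ p < q.2}.ncard : ℝ) ≤ C * (x : ℝ) ^ ε * G := by
  classical
  obtain ⟨C, hC, hcount⟩ := count (ε / 2) (by linarith)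
  refine ⟨C * (2 : ℝ) ^ (ε / 2) * (C * (2 : ℝ) ^ (ε / 2)), fun x G hx hG => ?_⟩
  set E : Set (ℕ × ℕ) := {q : ℕ × ℕ | 0 < q.1 ∧ q.1 ≤ x ∧ q.1 < q.2 ∧
    q.1.primeFactors = q.2.primeFactors ∧ ¬ ∃ p : ℕ, p.Prime ∧ q.1 < p ∧ p < q.2} with hE
  -- the integers with radical `r`
  let A : ℕ → Finset ℕ := fun r =>
    (Icc 1 (2 * x)).filter fun m => m.primeFactors = r.primeFactors
  let T : Finset (ℕ × ℕ) := (Icc 1 G).biUnion fun r => A r ×ˢ A r
  have hsub : E ⊆ (T : Set (ℕ × ℕ)) := by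
    rintro ⟨a, b⟩ ⟨ha, hax, hab, hrad, hno⟩
    simp only at ha hax hab hrad hno
    have hb2 : b ≤ 2 * a := by
      obtain ⟨p, hp, hap, hp2⟩ := Nat.exists_prime_lt_and_le_two_mul a (by omega)
      by_contra hcon
      exact hno ⟨p, hp, hap, by omega⟩
    obtain ⟨p, hp, hap, hpG⟩ := hG a (by omega) hax
    have hbp : b ≤ p := by
      by_contra hcon
      exact hno ⟨p, hp, hap, by omega⟩
    set r : ℕ := ∏ p ∈ a.primeFactors, p with hr
    have hra : r ∣ a := Nat.prod_primeFactors_dvd a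
    have hrb : r ∣ b := by
      rw [hr, hrad]
      exact Nat.prod_primeFactors_dvd b
    have hrle : r ≤ b - a := Nat.le_of_dvd (by omega) (Nat.dvd_sub hrb hra)
    have hrpos : 0 < r := Nat.pos_of_dvd_of_pos hra ha
    have hrfac : r.primeFactors = a.primeFactors := Nat.primeFactors_prod_primeFactors a
    rw [Finset.mem_coe, Finset.mem_biUnion]
    refine ⟨r, Finset.mem_Icc.2 ⟨hrpos, by omega⟩, ?_⟩
    rw [Finset.mem_product]
    refine ⟨Finset.mem_filter.2 ⟨Finset.mem_Icc.2 ⟨by omega, by omega⟩, hrfac.symm⟩,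
      Finset.mem_filter.2 ⟨Finset.mem_Icc.2 ⟨by omega, by omega⟩, ?_⟩⟩
    rw [hrfac, hrad]
  have hA : ∀ r, ((A r).card : ℝ) ≤ C * (2 : ℝ) ^ (ε / 2) * (x : ℝ) ^ (ε / 2) := by
    intro r
    have h1 := hcount r.primeFactors (2 * x)
    rw [Nat.cast_mul, Nat.cast_ofNat,
      Real.mul_rpow (by norm_num) (Nat.cast_nonneg _), ← mul_assoc] at h1
    exact h1
  refine ⟨T.finite_toSet.subset hsub, ?_⟩
  have hxpos : (0 : ℝ) < x := by exact_mod_cast hx
  have h1 : E.ncard ≤ T.card := by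
    rw [← Set.ncard_coe_finset T]
    exact Set.ncard_le_ncard hsub T.finite_toSet
  have h2 : T.card ≤ ∑ r ∈ Icc 1 G, (A r).card * (A r).card := by
    refine Finset.card_biUnion_le.trans (le_of_eq ?_)
    exact Finset.sum_congr rfl fun r _ => Finset.card_product _ _
  calc (E.ncard : ℝ) ≤ ((∑ r ∈ Icc 1 G, (A r).card * (A r).card : ℕ) : ℝ) := by
        exact_mod_cast h1.trans h2
    _ = ∑ r ∈ Icc 1 G, ((A r).card : ℝ) * ((A r).card : ℝ) := by push_cast; rfl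
    _ ≤ ∑ _r ∈ Icc 1 G, (C * (2 : ℝ) ^ (ε / 2) * (x : ℝ) ^ (ε / 2)) *
          (C * (2 : ℝ) ^ (ε / 2) * (x : ℝ) ^ (ε / 2)) :=
        Finset.sum_le_sum fun r _ =>
          mul_le_mul (hA r) (hA r) (Nat.cast_nonneg _) (by positivity)
    _ = C * (2 : ℝ) ^ (ε / 2) * (C * (2 : ℝ) ^ (ε / 2)) * (x : ℝ) ^ ε * G := by
        rw [Finset.sum_const, Nat.card_Icc, nsmul_eq_mul, Nat.add_sub_cancel]
        have : (x : ℝ) ^ ε = (x : ℝ) ^ (ε / 2) * (x : ℝ) ^ (ε / 2) := by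
          rw [← Real.rpow_add hxpos]
          congr 1
          ring
        rw [this]
        ring

end Pool.Agent.Results.MP_5f9bba_nt.FewExceptions
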