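import Mathlib

/-!
# MP_5f9bba_nt: the Erdos-Dressler question for polynomials over a finite field

`A` and `B` are monic polynomials of the same degree over a finite field `K` with the same
irreducible divisors.  The polynomials `P` with `deg (P - A) ≤ deg (B - A)` form the smallest
interval (ball) of `K[X]` that contains `A` and `B`.

For every `D ≥ 2` there are such pairs of arbitrarily large degree with `deg (B - A) = D` whose
interval contains no irreducible polynomial:
`A = X ^ (q ^ r) * X ^ (D - 1) * (X + 1)`, `B = (X + 1) ^ (q ^ r) * X ^ (D - 1) * (X + 1)` with `r`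
divisible by all numbers up to `D + 1`.  If `deg h ≤ D` then every irreducible divisor of
`X * g + h`, `g = X ^ (D - 1) * (X + 1)`, has degree at most `D + 1`, so it divides
`X ^ (q ^ r) - X` and therefore `A + h`.
-/

open Polynomial UniqueFactorizationMonoid

namespace Pool.Agent.Results.MP_5f9bba_nt.FunctionField

/-- `A` and `B` have the same irreducible divisors. -/
def SameRadical {K : Type*} [Field K] (A B : K[X]) : Prop :=
  ∀ P : K[X], Irreducible P → (P ∣ A ↔ P ∣ B)

section Frobenius

variable {K : Type*} [Field K] [Fintype K]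

/-- an irreducible polynomial whose degree divides `r` divides `X ^ (q ^ r) - X` -/
lemma irreducible_dvd (π : K[X]) (hπ : Irreducible π) {r : ℕ} (hr : π.natDegree ∣ r) :
    π ∣ (X : K[X]) ^ (Fintype.card K ^ r) - X := by
  classical
  haveI : Fact (Irreducible π) := ⟨hπ⟩
  have hfd : FiniteDimensional K (AdjoinRoot π) := (AdjoinRoot.powerBasis hπ.ne_zero).finite
  haveI : Finite (AdjoinRoot π) := Module.finite_of_finite K
  haveI : Fintype (AdjoinRoot π) := Fintype.ofFinite _
  have hcard : Fintype.card (AdjoinRoot π) = Fintype.card K ^ π.natDegree := by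
    rw [Module.card_eq_pow_finrank (K := K) (V := AdjoinRoot π), (AdjoinRoot.powerBasis hπ.ne_zero).finrank,
      AdjoinRoot.powerBasis_dim]
  obtain ⟨k, rfl⟩ := hr
  rw [← AdjoinRoot.mk_eq_zero, map_sub, map_pow, AdjoinRoot.mk_X, pow_mul, ← hcard,
    FiniteField.pow_card_pow, sub_self]

/-- the key point: near `u ^ (q ^ r) * g` every polynomial has a factor of small degree -/
lemma exists_factor (g h : K[X]) {r : ℕ} (hr : ∀ e, 1 ≤ e → e ≤ g.natDegree + 1 → e ∣ r)
    (hg : g ≠ 0) (hh : h.natDegree ≤ g.natDegree) :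
    ∃ π : K[X], Irreducible π ∧ π.natDegree ≤ g.natDegree + 1 ∧
      π ∣ X ^ (Fintype.card K ^ r) * g + h := by
  have hdeg : (X * g + h).natDegree = g.natDegree + 1 := by
    rw [natDegree_add_eq_left_of_natDegree_lt, natDegree_X_mul hg]
    rw [natDegree_X_mul hg]
    omega
  have hne : X * g + h ≠ 0 := by
    intro h0
    rw [h0, natDegree_zero] at hdeg
    omega
  have hnu : ¬ IsUnit (X * g + h) := by
    intro hu
    have := natDegree_eq_zero_of_isUnit hu
    omega
  obtain ⟨π, hπ, hdvd⟩ := WfDvdMonoid.exists_irreducible_factor hnu hne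
  have hle : π.natDegree ≤ g.natDegree + 1 := by
    rw [← hdeg]
    exact natDegree_le_of_dvd hdvd hne
  have hpos : 1 ≤ π.natDegree := Irreducible.natDegree_pos hπ
  refine ⟨π, hπ, hle, ?_⟩
  have h1 := irreducible_dvd π hπ (hr _ hpos hle)
  have h2 : X ^ (Fintype.card K ^ r) * g + h
      = ((X : K[X]) ^ (Fintype.card K ^ r) - X) * g + (X * g + h) := by ring
  rw [h2]
  exact dvd_add (dvd_mul_of_dvd_left h1 g) hdvd

/-- **Result.**  The analogue of the Erdos-Dressler question in `K[X]`, `K` a finite field, has a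
negative answer for every `K`. -/
theorem result (K : Type*) [Field K] [Finite K] (D : ℕ) (hD : 2 ≤ D) (N : ℕ) :
    ∃ A B : K[X], A.Monic ∧ B.Monic ∧ N < A.natDegree ∧ B.natDegree = A.natDegree ∧
      SameRadical A B ∧ (B - A).natDegree = D ∧
      ∀ P : K[X], (P - A).natDegree ≤ (B - A).natDegree → ¬ Irreducible P := by
  classical
  haveI : Fintype K := Fintype.ofFinite K
  set q := Fintype.card K with hq
  have hq2 : 1 < q := Fintype.one_lt_card
  set g : K[X] := X ^ (D - 1) * (X + C 1) with hg
  have hgm : g.Monic := (monic_X_pow _).mul (monic_X_add_C 1)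
  have hgd : g.natDegree = D := by
    rw [hg, (monic_X_pow _).natDegree_mul (monic_X_add_C 1), natDegree_X_pow, natDegree_X_add_C]
    omega
  set r := (D + 1).factorial * (N + 1) with hr
  have hrdvd : ∀ e, 1 ≤ e → e ≤ g.natDegree + 1 → e ∣ r := by
    intro e h1 h2
    rw [hgd] at h2
    exact Dvd.dvd.mul_right (Nat.dvd_factorial h1 h2) _
  have hrN : N < r := by
    have : 1 ≤ (D + 1).factorial := Nat.factorial_pos _
    nlinarith
  have hqr : r < q ^ r := Nat.lt_pow_self hq2
  have hfrob : ((X : K[X]) + C 1) ^ (q ^ r) = X ^ (q ^ r) + C 1 := by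
    obtain ⟨p, hcp, n, hp, hpn⟩ := FiniteField.card' K
    haveI : Fact p.Prime := ⟨hp⟩
    haveI := hcp
    have h1 : q ^ r = p ^ ((n : ℕ) * r) := by
      rw [hq, hpn, ← pow_mul]
    rw [h1, add_pow_char_pow, ← C_pow, one_pow]
  have hXm : ((X : K[X]) ^ (q ^ r)).Monic := monic_X_pow _
  have hYm : ((X : K[X]) + C 1) ^ (q ^ r) |>.Monic := (monic_X_add_C 1).pow _
  have hA : (X ^ (q ^ r) * g).natDegree = q ^ r + D := by
    rw [hXm.natDegree_mul hgm, natDegree_X_pow, hgd]
  have hB : (((X : K[X]) + C 1) ^ (q ^ r) * g).natDegree = q ^ r + D := by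
    rw [hYm.natDegree_mul hgm, (monic_X_add_C 1).natDegree_pow, natDegree_X_add_C, mul_one, hgd]
  have hdiff : ((X : K[X]) + C 1) ^ (q ^ r) * g - X ^ (q ^ r) * g = g := by
    rw [hfrob, C_1]
    ring
  have hq0 : q ^ r ≠ 0 := by positivity
  refine ⟨X ^ (q ^ r) * g, (X + C 1) ^ (q ^ r) * g, hXm.mul hgm, hYm.mul hgm, ?_, ?_, ?_, ?_, ?_⟩
  · rw [hA]
    omega
  · rw [hA, hB]
  · intro P hP
    have hPp : Prime P := hP.prime
    have hXg : (X : K[X]) ∣ g := by
      rw [hg]
      exact Dvd.dvd.mul_right (dvd_pow_self _ (by omega)) _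
    have hYg : (X : K[X]) + C 1 ∣ g := Dvd.intro_left _ rfl
    constructor
    · intro h
      rcases hPp.dvd_or_dvd h with h | h
      · exact Dvd.dvd.mul_left ((hPp.dvd_of_dvd_pow h).trans hXg) _
      · exact Dvd.dvd.mul_left h _
    · intro h
      rcases hPp.dvd_or_dvd h with h | h
      · exact Dvd.dvd.mul_left ((hPp.dvd_of_dvd_pow h).trans hYg) _
      · exact Dvd.dvd.mul_left h _
  · rw [hdiff, hgd]
  · intro P hP hirr
    rw [hdiff] at hP
    obtain ⟨π, hπ, hle, hdvd⟩ := exists_factor g (P - X ^ (q ^ r) * g) hrdvd hgm.ne_zero hP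
    have h1 : X ^ (Fintype.card K ^ r) * g + (P - X ^ (q ^ r) * g) = P := by
      rw [← hq]
      ring
    rw [h1] at hdvd
    have h2 : Associated π P := hπ.associated_of_dvd hirr hdvd
    have h3 : π.natDegree = P.natDegree := natDegree_eq_of_degree_eq (degree_eq_degree_of_associated h2)
    have h4 : P.natDegree = q ^ r + D := by
      have h5 : P = X ^ (q ^ r) * g + (P - X ^ (q ^ r) * g) := by ring
      rw [h5, natDegree_add_eq_left_of_natDegree_lt, hA]
      rw [hA]
      rw [hgd] at hP
      omega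
    rw [hgd] at hle
    have h6 : 1 < q ^ r := by omega
    omega

end Frobenius

end Pool.Agent.Results.MP_5f9bba_nt.FunctionField
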